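import Mathlib
import Pool.Agent.helper60.Galvin
import Pool.Agent.helper60.Landau

/-!
# List Ramsey numbers of stars

`R_ℓ(K_{1,r}, k) = R(K_{1,r}, k)` for all `k ≥ 1` and all `r ≥ 1` with `r ≠ 2`.
-/

open Finset Pool.Agent.helper60.Galvin Pool.Agent.helper60.Landau

namespace Pool.Agent.Results.MP_fbd69e_co.StarListRamsey

/-- A tournament with suitable scores gives list colourings in which every colour occurs at most
`m` times at each vertex. -/
lemma list_colouring {n k m : ℕ} (hk : 0 < k) (s a b : Fin n → ℕ) (hab : ∀ v, a v + b v = m)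
    (hs : ∑ v, s v = n.choose 2) (hA : ∀ A : Finset (Fin n), A.card.choose 2 ≤ ∑ v ∈ A, s v)
    (hsa : ∀ v, s v ≤ k * a v) (hsb : ∀ v, n - 1 ≤ s v + k * b v)
    (L : Fin n → Fin n → Finset ℕ) (hL : ∀ v w : Fin n, v ≠ w → L v w = L w v ∧ (L v w).card = k) :
    ∃ c : Fin n → Fin n → ℕ, (∀ v w : Fin n, v ≠ w → c v w = c w v ∧ c v w ∈ L v w) ∧
      ∀ v : Fin n, ∀ col : ℕ, ∀ S : Finset (Fin n), v ∉ S → (∀ w ∈ S, c v w = col) → S.card ≤ m := by
  classical
  obtain ⟨o, ho, hos⟩ := landau s hs hA
  obtain ⟨o', ho'⟩ := exists_other o ho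
  have hsum := card_add o o' ho'
  obtain ⟨c, hc1, hc2, hc3⟩ := galvin_cap o o' a b k hk
    (fun v => by rw [hos]; exact hsa v)
    (fun v => by have := hsum v; rw [hos] at this; have := hsb v; omega)
    (fun e => L (o e) (o' e)) (fun e => by rw [(hL _ _ (ho' e).1).2])
  have hpair : ∀ v w : Fin n, v ≠ w → ({v, w} : Finset (Fin n)).card = 2 :=
    fun v w h => Finset.card_pair h
  let C : Fin n → Fin n → ℕ := fun v w => if h : v ≠ w then c ⟨{v, w}, hpair v w h⟩ else 0
  refine ⟨C, ?_, ?_⟩
  · intro v w hvw
    constructor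
    · simp only [C, dif_pos hvw, dif_pos hvw.symm]
      congr 2
      exact Finset.pair_comm v w
    · simp only [C, dif_pos hvw]
      have h1 := hc1 ⟨{v, w}, hpair v w hvw⟩
      have h2 := (ho' ⟨{v, w}, hpair v w hvw⟩).2
      have h3 := (ho' ⟨{v, w}, hpair v w hvw⟩).1
      generalize o ⟨{v, w}, hpair v w hvw⟩ = x at h1 h2 h3
      generalize o' ⟨{v, w}, hpair v w hvw⟩ = y at h1 h2 h3
      simp only at h2
      have hx : x = v ∨ x = w := by
        have : x ∈ ({v, w} : Finset (Fin n)) := by rw [h2]; simp
        simpa using this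
      have hy : y = v ∨ y = w := by
        have : y ∈ ({v, w} : Finset (Fin n)) := by rw [h2]; simp
        simpa using this
      rcases hx with rfl | rfl <;> rcases hy with rfl | rfl
      · exact absurd rfl h3
      · exact h1
      · rw [(hL _ _ hvw).1]; exact h1
      · exact absurd rfl h3
  · intro v col S hvS hS
    have hne : ∀ w ∈ S, v ≠ w := fun w hw h => hvS (h ▸ hw)
    have h1 : S.card ≤ (univ.filter (fun e : Edge n => o e = v ∧ c e = col) ∪
        univ.filter (fun e : Edge n => o' e = v ∧ c e = col)).card := by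
      rw [← Finset.card_attach]
      refine Finset.card_le_card_of_injOn
        (fun w => (⟨{v, w.1}, hpair v w.1 (hne w.1 w.2)⟩ : Edge n)) ?_ ?_
      · intro w _
        have hcw : c ⟨{v, w.1}, hpair v w.1 (hne w.1 w.2)⟩ = col := by
          have := hS w.1 w.2
          simp only [C, dif_pos (hne w.1 w.2)] at this
          exact this
        have h2 := (ho' ⟨{v, w.1}, hpair v w.1 (hne w.1 w.2)⟩).2
        simp only at h2
        have hv : v ∈ ({v, w.1} : Finset (Fin n)) := by simp
        rw [h2, mem_insert, mem_singleton] at hv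
        simp only [coe_union, coe_filter, mem_univ, true_and, Set.mem_union, Set.mem_ofPred_eq]
        rcases hv with hv | hv
        · exact Or.inl ⟨hv.symm, hcw⟩
        · exact Or.inr ⟨hv.symm, hcw⟩
      · intro w _ w' _ hh
        simp only [Subtype.mk.injEq] at hh
        have h3 : w.1 ∈ ({v, w'.1} : Finset (Fin n)) := by rw [← hh]; simp
        rw [mem_insert, mem_singleton] at h3
        rcases h3 with h3 | h3
        · exact absurd h3.symm (hne w.1 w.2)
        · exact Subtype.ext h3
    refine h1.trans ((Finset.card_union_le _ _).trans ?_)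
    rw [← hab v]
    exact Nat.add_le_add (hc2 v col) (hc3 v col)

/-- The largest `n` for which the edges of `K_n` have a `k`-colouring without monochromatic
`K_{1,m+1}`. -/
def N0 (k m : ℕ) : ℕ := if k % 2 = 0 ∧ m % 2 = 1 then k * m else k * m + 1

lemma list_colouring_N0 {k m : ℕ} (hk : 0 < k) (hm : m ≠ 1)
    (L : Fin (N0 k m) → Fin (N0 k m) → Finset ℕ)
    (hL : ∀ v w, v ≠ w → L v w = L w v ∧ (L v w).card = k) :
    ∃ c : Fin (N0 k m) → Fin (N0 k m) → ℕ,
      (∀ v w, v ≠ w → c v w = c w v ∧ c v w ∈ L v w) ∧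
      ∀ v, ∀ col : ℕ, ∀ S : Finset (Fin (N0 k m)), v ∉ S → (∀ w ∈ S, c v w = col) →
        S.card ≤ m := by
  classical
  rcases Nat.even_or_odd' m with ⟨q, rfl | rfl⟩
  · -- `m = 2q` even: regular tournament
    have hN : N0 k (2 * q) = 2 * (k * q) + 1 := by
      unfold N0
      rw [if_neg (by omega)]
      ring
    refine list_colouring hk (fun _ => k * q) (fun _ => q) (fun _ => q) (fun _ => by ring) ?_ ?_
      (fun _ => le_rfl) (fun _ => ?_) L hL
    · rw [Finset.sum_const, Finset.card_univ, Fintype.card_fin, smul_eq_mul, hN,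
        Nat.choose_two_right]
      have : (2 * (k * q) + 1) * (2 * (k * q) + 1 - 1) = 2 * ((2 * (k * q) + 1) * (k * q)) := by
        rw [Nat.add_sub_cancel]; ring
      rw [this, Nat.mul_div_cancel_left _ (by norm_num)]
    · intro A
      rw [Finset.sum_const, smul_eq_mul, Nat.choose_two_right]
      apply Nat.div_le_of_le_mul
      have h1 : A.card ≤ N0 k (2 * q) := by
        have := Finset.card_le_univ A
        simpa using this
      have h1 : A.card ≤ 2 * (k * q) + 1 := h1.trans_eq hN
      calc A.card * (A.card - 1) ≤ A.card * (2 * (k * q)) := Nat.mul_le_mul_left _ (by omega)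
        _ = 2 * (A.card * (k * q)) := by ring
    · rw [hN]
      have : k * q + k * q = 2 * (k * q) := by ring
      omega
  · -- `m = 2q+1` odd with `q ≥ 1`
    have hq : 1 ≤ q := by
      rcases Nat.eq_zero_or_pos q with h | h
      · subst h; exact absurd rfl hm
      · exact h
    have hkq : k ≤ k * q := Nat.le_mul_of_pos_right k hq
    -- common part
    have main : ∀ (h B b : ℕ), N0 k (2 * q + 1) = 2 * h → B + b + 1 = 2 * h → b = k * q →
        B ≤ k * (q + 1) → h ≤ 2 * b + 1 → b ≤ B → 
        ∃ c : Fin (N0 k (2 * q + 1)) → Fin (N0 k (2 * q + 1)) → ℕ,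
          (∀ v w, v ≠ w → c v w = c w v ∧ c v w ∈ L v w) ∧
          ∀ v, ∀ col : ℕ, ∀ S : Finset (Fin (N0 k (2 * q + 1))), v ∉ S →
            (∀ w ∈ S, c v w = col) → S.card ≤ 2 * q + 1 := by
      intro h B b hN hBb hb hB hh hbB
      have hcard1 : ((univ : Finset (Fin (N0 k (2 * q + 1)))).filter (fun v => v.val < h)).card
          = h := by
        have : ((univ : Finset (Fin (N0 k (2 * q + 1)))).filter (fun v => v.val < h)).card =
            (Finset.range h).card := by
          refine Finset.card_bij (fun v _ => v.val) ?_ ?_ ?_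
          · intro v hv
            simpa using hv
          · intro v _ w _ hvw
            exact Fin.ext hvw
          · intro x hx
            rw [Finset.mem_range] at hx
            exact ⟨⟨x, by rw [hN]; omega⟩, by simpa using hx, rfl⟩
        rw [this, Finset.card_range]
      have hcard2 : ((univ : Finset (Fin (N0 k (2 * q + 1)))).filter (fun v => ¬ v.val < h)).card
          = h := by
        have h1 := Finset.card_filter_add_card_filter_not
          (s := (univ : Finset (Fin (N0 k (2 * q + 1))))) (fun v => v.val < h)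
        rw [hcard1, Finset.card_univ, Fintype.card_fin] at h1
        omega
      have hsumA : ∀ A : Finset (Fin (N0 k (2 * q + 1))),
          ∑ v ∈ A, (if v.val < h then B else b) =
            B * (A.filter (fun v => v.val < h)).card +
            b * (A.filter (fun v => ¬ v.val < h)).card := by
        intro A
        rw [Finset.sum_ite, Finset.sum_const, Finset.sum_const, smul_eq_mul, smul_eq_mul]
        ring
      refine list_colouring hk (fun v => if v.val < h then B else b)
        (fun v => if v.val < h then q + 1 else q) (fun v => if v.val < h then q else q + 1)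
        (fun v => by split_ifs <;> omega) ?_ ?_ ?_ ?_ L hL
      · rw [hsumA, hcard1, hcard2, hN, Nat.choose_two_right]
        have h1 : 2 * h * (2 * h - 1) = 2 * (B * h + b * h) := by
          have : 2 * h - 1 = B + b := by omega
          rw [this]; ring
        rw [h1, Nat.mul_div_cancel_left _ (by norm_num)]
      · intro A
        rw [hsumA]
        have h1 : A.card = (A.filter (fun v => v.val < h)).card +
            (A.filter (fun v => ¬ v.val < h)).card :=
          (Finset.card_filter_add_card_filter_not _).symm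
        rw [h1]
        refine two_valued h B b hBb hh hbB _ _ ?_ ?_
        · refine le_trans ?_ hcard1.le
          exact Finset.card_le_card (Finset.filter_subset_filter _ (Finset.subset_univ _))
        · refine le_trans ?_ hcard2.le
          exact Finset.card_le_card (Finset.filter_subset_filter _ (Finset.subset_univ _))
      · intro v
        split_ifs
        · exact hB
        · exact hb.le
      · intro v
        have hNe : N0 k (2 * q + 1) ≤ k * (2 * q + 1) + 1 := by
          unfold N0; split_ifs <;> omega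
        have e1 : k * (2 * q + 1) = k * q + k * q + k := by ring
        have e2 : k * (q + 1) = k * q + k := by ring
        split_ifs
        · rw [hN]
          omega
        · omega
    have e1 : k * (2 * q + 1) = 2 * (k * q) + k := by ring
    have e2 : k * (q + 1) = k * q + k := by ring
    rcases Nat.even_or_odd' k with ⟨p, hp | hp⟩
    · -- `k` even
      have hN : N0 k (2 * q + 1) = k * (2 * q + 1) := by
        unfold N0; rw [if_pos (by omega)]
      refine main (k * q + p) (k * (q + 1) - 1) (k * q) ?_ ?_ rfl ?_ ?_ ?_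
      · rw [hN, e1]; omega
      · rw [e2]; omega
      · omega
      · omega
      · rw [e2]; omega
    · -- `k` odd
      have hN : N0 k (2 * q + 1) = k * (2 * q + 1) + 1 := by
        unfold N0; rw [if_neg (by omega)]
      refine main (k * q + p + 1) (k * (q + 1)) (k * q) ?_ ?_ rfl ?_ ?_ ?_
      · rw [hN, e1]; omega
      · rw [e2]; omega
      · omega
      · omega
      · rw [e2]; omega

/-- `N0 k m + 1` vertices always force a monochromatic star with `m + 1` edges. -/
lemma forces_star {k m : ℕ} (hk : 0 < k) (c : Fin (N0 k m + 1) → Fin (N0 k m + 1) → Fin k)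
    (hc : ∀ v w, v ≠ w → c v w = c w v) :
    ∃ v, ∃ a : Fin k, ∃ S : Finset (Fin (N0 k m + 1)), S.card = m + 1 ∧ v ∉ S ∧
      ∀ w ∈ S, c v w = a := by
  classical
  by_contra hcon
  push Not at hcon
  let D : Fin (N0 k m + 1) → Fin k → Finset (Fin (N0 k m + 1)) :=
    fun v a => (univ.erase v).filter (fun w => c v w = a)
  have hD : ∀ v a, (D v a).card ≤ m := by
    intro v a
    by_contra hlt
    push Not at hlt
    obtain ⟨S, hS, hSc⟩ := Finset.exists_subset_card_eq hlt
    obtain ⟨w, hw, hne⟩ := hcon v a S hSc (fun hv => by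
      have := hS hv
      simp [D] at this)
    have := hS hw
    simp only [D, mem_filter] at this
    exact hne this.2
  have hDsum : ∀ v, ∑ a, (D v a).card = N0 k m := by
    intro v
    have h1 : (univ.erase v : Finset (Fin (N0 k m + 1))).card = N0 k m := by
      rw [Finset.card_erase_of_mem (mem_univ _)]; simp
    refine Eq.trans ?_ h1
    exact (Finset.card_eq_sum_card_fiberwise (f := c v) (t := univ) (fun e _ => by simp)).symm
  have hle : N0 k m ≤ k * m := by
    rw [← hDsum 0]
    calc ∑ a, (D 0 a).card ≤ ∑ a : Fin k, m := Finset.sum_le_sum (fun a _ => hD 0 a)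
      _ = k * m := by simp
  by_cases hpar : k % 2 = 0 ∧ m % 2 = 1
  · have hN : N0 k m = k * m := by unfold N0; rw [if_pos hpar]
    -- every colour class is `m`-regular on an odd number of vertices
    have hreg : ∀ v a, (D v a).card = m := by
      intro v
      have h1 : ∑ a, (D v a).card = ∑ a : Fin k, m := by rw [hDsum, hN]; simp
      intro a
      exact (Finset.sum_eq_sum_iff_of_le (fun a _ => hD v a)).1 h1 a (mem_univ a)
    let a0 : Fin k := ⟨0, hk⟩
    -- count ordered pairs of colour `a0`
    let P : Finset (Fin (N0 k m + 1) × Fin (N0 k m + 1)) :=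
      univ.filter (fun p => p.1 ≠ p.2 ∧ c p.1 p.2 = a0)
    have hP1 : P.card = (N0 k m + 1) * m := by
      have h1 : P.card = ∑ v, (D v a0).card := by
        rw [Finset.card_eq_sum_card_fiberwise (f := Prod.fst) (t := univ) (fun e _ => by simp)]
        refine Finset.sum_congr rfl (fun v _ => ?_)
        refine Finset.card_bij (fun p _ => p.2) ?_ ?_ ?_
        · rintro ⟨x, y⟩ hp
          simp only [P, mem_filter, mem_univ, true_and] at hp
          simp only [D, mem_filter, mem_erase, mem_univ, and_true]
          obtain ⟨⟨h1, h2⟩, rfl⟩ := hp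
          exact ⟨h1.symm, h2⟩
        · rintro ⟨x, y⟩ hp ⟨x', y'⟩ hp' hh
          simp only [mem_filter] at hp hp'
          simp only at hh
          rw [Prod.mk.injEq]
          exact ⟨hp.2.trans hp'.2.symm, hh⟩
        · intro w hw
          simp only [D, mem_filter, mem_erase, mem_univ, and_true] at hw
          refine ⟨(v, w), ?_, rfl⟩
          simp only [P, mem_filter, mem_univ, true_and, and_true]
          exact ⟨hw.1.symm, hw.2⟩
      rw [h1, Finset.sum_congr rfl (fun v _ => hreg v a0)]
      simp
    have hP2 : Even P.card := by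
      let P1 := P.filter (fun p => p.1 < p.2)
      let P2 := P.filter (fun p => ¬ p.1 < p.2)
      have h12 : P1.card + P2.card = P.card := Finset.card_filter_add_card_filter_not _
      have hbij : P1.card = P2.card := by
        refine Finset.card_bij (fun p _ => (p.2, p.1)) ?_ ?_ ?_
        · rintro ⟨x, y⟩ hp
          simp only [P1, P2, P, mem_filter, mem_univ, true_and] at hp ⊢
          exact ⟨⟨hp.1.1.symm, by rw [← hc _ _ hp.1.1]; exact hp.1.2⟩, not_lt.2 hp.2.le⟩
        · rintro ⟨x, y⟩ hp ⟨x', y'⟩ hp' hh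
          simp only [Prod.mk.injEq] at hh ⊢
          exact ⟨hh.2, hh.1⟩
        · rintro ⟨x, y⟩ hp
          refine ⟨(y, x), ?_, rfl⟩
          simp only [P1, P2, P, mem_filter, mem_univ, true_and] at hp ⊢
          refine ⟨⟨hp.1.1.symm, by rw [← hc _ _ hp.1.1]; exact hp.1.2⟩, ?_⟩
          exact lt_of_le_of_ne (not_lt.1 hp.2) hp.1.1.symm
      exact ⟨P1.card, by omega⟩
    rw [hP1, hN] at hP2
    have hodd : Odd ((k * m + 1) * m) := by
      apply Odd.mul
      · have : Even (k * m) := Even.mul_right (Nat.even_iff.2 hpar.1) m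
        exact this.add_one
      · exact Nat.odd_iff.2 hpar.2
    exact (Nat.not_even_iff_odd.2 hodd) hP2
  · have hN : N0 k m = k * m + 1 := by unfold N0; rw [if_neg hpar]
    omega

/-- **List Ramsey numbers of stars.** For all `k ≥ 1` and all `r ≥ 1` with `r ≠ 2` the list Ramsey
number `R_ℓ(K_{1,r}, k)` equals the Ramsey number `R(K_{1,r}, k)`. -/
theorem result : ∀ r k : ℕ, 1 ≤ r → 1 ≤ k → r ≠ 2 →
    sInf {n : ℕ | ∃ L : Fin n → Fin n → Finset ℕ,
        (∀ v w : Fin n, v ≠ w → L v w = L w v ∧ (L v w).card = k) ∧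
        ∀ c : Fin n → Fin n → ℕ,
          (∀ v w : Fin n, v ≠ w → c v w = c w v ∧ c v w ∈ L v w) →
          ∃ v : Fin n, ∃ a : ℕ, ∃ S : Finset (Fin n),
            S.card = r ∧ v ∉ S ∧ ∀ w ∈ S, c v w = a}
    = sInf {n : ℕ | ∀ c : Fin n → Fin n → Fin k,
          (∀ v w : Fin n, v ≠ w → c v w = c w v) →
          ∃ v : Fin n, ∃ a : Fin k, ∃ S : Finset (Fin n),
            S.card = r ∧ v ∉ S ∧ ∀ w ∈ S, c v w = a} := by
  classical
  intro r k hr hk hr2
  obtain ⟨m, rfl⟩ : ∃ m, r = m + 1 := ⟨r - 1, by omega⟩
  have hm : m ≠ 1 := by omega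
  set A := {n : ℕ | ∃ L : Fin n → Fin n → Finset ℕ,
        (∀ v w : Fin n, v ≠ w → L v w = L w v ∧ (L v w).card = k) ∧
        ∀ c : Fin n → Fin n → ℕ,
          (∀ v w : Fin n, v ≠ w → c v w = c w v ∧ c v w ∈ L v w) →
          ∃ v : Fin n, ∃ a : ℕ, ∃ S : Finset (Fin n),
            S.card = m + 1 ∧ v ∉ S ∧ ∀ w ∈ S, c v w = a} with hAdef
  set B := {n : ℕ | ∀ c : Fin n → Fin n → Fin k,
          (∀ v w : Fin n, v ≠ w → c v w = c w v) →
          ∃ v : Fin n, ∃ a : Fin k, ∃ S : Finset (Fin n),
            S.card = m + 1 ∧ v ∉ S ∧ ∀ w ∈ S, c v w = a} with hBdef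
  have hB : N0 k m + 1 ∈ B := fun c hc => forces_star hk c hc
  have hBA : B ⊆ A := by
    intro n hn
    refine ⟨fun _ _ => range k, fun v w _ => ⟨rfl, Finset.card_range k⟩, ?_⟩
    intro c hc
    have hlt : ∀ v w : Fin n, v ≠ w → c v w < k := fun v w h => by
      have := (hc v w h).2
      simpa using this
    let c' : Fin n → Fin n → Fin k := fun v w => if h : v ≠ w then ⟨c v w, hlt v w h⟩ else ⟨0, hk⟩
    obtain ⟨v, a, S, hS, hv, hw⟩ := hn c' (fun v w h => by
      simp only [c', dif_pos h, dif_pos h.symm, Fin.mk.injEq]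
      exact (hc v w h).1)
    refine ⟨v, a.val, S, hS, hv, fun w hwS => ?_⟩
    have h1 := hw w hwS
    have hne : v ≠ w := fun h => hv (h ▸ hwS)
    simp only [c', dif_pos hne] at h1
    rw [← h1]
  have hAlow : ∀ n ∈ A, N0 k m + 1 ≤ n := by
    intro n hn
    by_contra hlt
    push Not at hlt
    have hle : n ≤ N0 k m := by omega
    obtain ⟨L, hL, hLc⟩ := hn
    -- extend the lists
    let L' : Fin (N0 k m) → Fin (N0 k m) → Finset ℕ := fun v w =>
      if h : v.val < n ∧ w.val < n then L ⟨v.val, h.1⟩ ⟨w.val, h.2⟩ else range k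
    have hL' : ∀ v w, v ≠ w → L' v w = L' w v ∧ (L' v w).card = k := by
      intro v w hvw
      by_cases h : v.val < n ∧ w.val < n
      · have hne : (⟨v.val, h.1⟩ : Fin n) ≠ ⟨w.val, h.2⟩ := by
          intro hh
          simp only [Fin.mk.injEq] at hh
          exact hvw (Fin.ext hh)
        simp only [L', dif_pos h, dif_pos h.symm]
        exact hL _ _ hne
      · have h' : ¬ (w.val < n ∧ v.val < n) := fun hh => h hh.symm
        simp only [L', dif_neg h, dif_neg h']
        exact ⟨trivial, Finset.card_range k⟩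
    obtain ⟨c, hc1, hc2⟩ := list_colouring_N0 hk hm L' hL'
    let ι : Fin n → Fin (N0 k m) := Fin.castLE hle
    have hι : Function.Injective ι := Fin.castLE_injective hle
    obtain ⟨v, a, S, hS, hv, hw⟩ := hLc (fun v w => c (ι v) (ι w)) (by
      intro v w hvw
      have hne : ι v ≠ ι w := fun h => hvw (hι h)
      refine ⟨(hc1 _ _ hne).1, ?_⟩
      have h1 := (hc1 _ _ hne).2
      have h2 : L' (ι v) (ι w) = L v w := by
        have h3 : (ι v).val < n ∧ (ι w).val < n := ⟨v.isLt, w.isLt⟩
        simp only [L', dif_pos h3]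
        rfl
      rwa [h2] at h1)
    have h4 := hc2 (ι v) a (S.map ⟨ι, hι⟩) (by
      intro hmem
      rw [Finset.mem_map] at hmem
      obtain ⟨w, hwS, hww⟩ := hmem
      exact hv ((hι hww) ▸ hwS)) (by
      intro w hwm
      rw [Finset.mem_map] at hwm
      obtain ⟨w', hw', rfl⟩ := hwm
      exact hw w' hw')
    rw [Finset.card_map, hS] at h4
    omega
  have hBne : B.Nonempty := ⟨_, hB⟩
  have hAne : A.Nonempty := hBne.mono hBA
  apply le_antisymm
  · exact Nat.sInf_le (hBA (Nat.sInf_mem hBne))
  · exact (Nat.sInf_le hB).trans (hAlow _ (Nat.sInf_mem hAne))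

end Pool.Agent.Results.MP_fbd69e_co.StarListRamsey
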